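import Mathlib
import Pool.Agent.MWLE.StmtsA
import Pool.Agent.Helper27_MWF.POW
import Pool.Agent.Helper77_MWF.CTT
import Pool.Agent.Helper42_MWF.SIM

/-!
# Row mwle FAC: the common facts are kept
-/

set_option autoImplicit false

namespace Pool.Agent.MWLE.H95

open Pool.Agent.Helper14_MV Pool.Agent.Helper2_MV
open Pool.Agent.MWK (pre Gw)
open Pool.Agent.MWF (Ap gaml dbl)
open Pool.Agent.MWGN (nn Gz E0 P0 A0 Tau gh)
open Pool.Agent.MWLE

theorem mem_of_psi {e c : ℕ} {L : List ℕ} (h : c ∈ L.flatMap (psi e)) : c ∈ L := by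
  obtain ⟨d, hd, h1⟩ := List.mem_flatMap.1 h
  unfold psi at h1
  split_ifs at h1
  · simp at h1
  · simp only [List.mem_cons, List.not_mem_nil, or_false, or_self] at h1
    rw [h1]
    exact hd
  · rw [List.mem_singleton.1 h1]
    exact hd

theorem psi_mem {e c : ℕ} {L : List ℕ} (h : c ∈ L) (hc : c ≠ e) : c ∈ L.flatMap (psi e) := by
  refine List.mem_flatMap.2 ⟨c, h, ?_⟩
  unfold psi
  rw [if_neg hc]
  split_ifs <;> simp

theorem fac (hWFC : WfcStmt) (hWXY : WxyStmt) (hPST : PstStmt) (hORD : OrdStmt)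
    (hOLR : Pool.Agent.MWGN.OlrStmt) : FacStmt := by
  intro β hG hE0 hk0 σ τ m e he hSg W hKK
  have hCTT := MWF.H77.ctt MWF.H27.pow β hG.gw.ap
  have hSIM := MWF.H42.sim MWF.H27.pow (MWF.H77.ctt MWF.H27.pow) β hG.gw.ap
  obtain ⟨w1, hw1⟩ : ∃ w1, w1 = wd σ m false false := ⟨_, rfl⟩
  have hF := hWFC σ τ m hSg
  have hX := hWXY σ τ m hSg
  unfold KK at hKK
  rw [← hw1] at hF hX hKK
  obtain ⟨w, hw⟩ : ∃ w, w = w1.flatMap (psi e) := ⟨_, rfl⟩
  obtain ⟨w', hw'⟩ : ∃ w', w' = W.flatMap (psi e) := ⟨_, rfl⟩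
  rw [← hw, ← hw'] at hKK
  have hr : RR β w w' := hKK.symm
  obtain ⟨a1, a2, a3, a4, a5, -⟩ := hPST e w1 he
  obtain ⟨b1, b2, b3, b4, b5, -⟩ := hPST e W he
  rw [← hw] at a1 a2 a3 a4 a5
  rw [← hw'] at b1 b2 b3 b4 b5
  have pe : ∀ k, pin k ≠ e := fun k => by unfold pin; omega
  have p5 : ∀ k, pin k % 5 ≠ 4 := fun k => by unfold pin; omega
  have se : ∀ k, sep k ≠ e := fun k => by unfold sep; omega
  have s5 : ∀ k, sep k % 5 ≠ 4 := fun k => by unfold sep; omega
  have psn : ∀ j k, pin j ≠ sep k := fun j k => by unfold pin sep; omega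
  have ppn : ∀ j k, j ≠ k → pin j ≠ pin k := fun j k h => by unfold pin; omega
  have ssn : ∀ j k, j ≠ k → sep j ≠ sep k := fun j k h => by unfold sep; omega
  have ct1 : ∀ k ≤ 2 * m + 2, w.count (sep k) = 1 := fun k hk => by
    rw [a1 _ (se k) (s5 k)]
    exact hF.s1 k hk
  have ct1' : ∀ k ≤ 2 * m + 2, w'.count (sep k) = 1 := fun k hk =>
    hSIM w w' hr _ (ct1 k hk)
  have hh : σ.headD 0 ≤ 2 * m + 2 := by
    cases σ with
    | nil => simp
    | cons a l =>
      have h1 := (hSg.me a).1 List.mem_cons_self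
      simpa using h1
  have olr : ∀ c, c ≠ e → ∀ k ≤ 2 * m + 2, c ≠ sep k →
      ((nn w c (sep k) = 0 ↔ nn w' c (sep k) = 0) ∧ (nn w c (sep k) = 1 ↔ nn w' c (sep k) = 1) ∧
      (nn w c (sep k) = w.count c ↔ nn w' c (sep k) = w'.count c)) := fun c _ k hk hc =>
    hOLR β hG.gw hE0 w w' hr c (sep k) (ct1 k hk) hc
  have cp2 : ∀ k ≤ 2 * m + 2, 2 ≤ w.count (pin k) := fun k hk => by
    rw [a1 _ (pe k) (p5 k)]
    exact hF.p2 k hk
  have cp2' : ∀ k ≤ 2 * m + 2, 2 ≤ w'.count (pin k) := by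
    intro k hk
    have h1 := cp2 k hk
    have h2 : pin k ∈ w' := (hCTT w w' hr _).1 (List.count_pos_iff.1 (by omega))
    have h3 := List.count_pos_iff.2 h2
    by_contra h4
    have h5 := hSIM w' w hr.symm (pin k) (by omega)
    omega
  have jk : ∀ j k, j ∈ pre σ k → j ≠ k := by
    rintro j k h rfl
    exact MWK.not_mem_pre σ j h
  have wps : ∀ k ≤ 2 * m + 2, nn w (pin k) (sep k) = 1 := fun k hk => by
    rw [a4 _ _ (pe k) (se k) (p5 k) (s5 k)]
    exact hF.ps k hk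
  have wpa : ∀ j k, j ≤ 2 * m + 2 → k ≤ 2 * m + 2 → j ∈ pre σ k →
      nn w (pin j) (sep k) = w.count (pin j) := fun j k hj hk h => by
    rw [a4 _ _ (pe j) (se k) (p5 j) (s5 k), a1 _ (pe j) (p5 j)]
    exact hF.pa j k hj hk h
  have wpb : ∀ j k, j ≤ 2 * m + 2 → k ≤ 2 * m + 2 → j ∈ pre σ k →
      nn w (pin k) (sep j) = 1 := fun j k hj hk h => by
    rw [a4 _ _ (pe k) (se j) (p5 k) (s5 j)]
    exact hF.pb j k hj hk h
  have wss : ∀ j k, j ≤ 2 * m + 2 → k ≤ 2 * m + 2 → j ∈ pre σ k →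
      nn w (sep j) (sep k) = 1 := fun j k hj hk h => by
    rw [a4 _ _ (se j) (se k) (s5 j) (s5 k)]
    exact hF.ss j k hj hk h
  have hFc : Fc σ m W := by
    refine ⟨?_, ?_, ?_, ?_, ?_, ?_, ?_, ?_, ?_⟩
    · intro c hc
      by_cases hce : c = e
      · omega
      · by_cases hc5 : c % 5 = 4
        · exact Or.inr (Or.inr (Or.inl hc5))
        · have h1 : c ∈ w' := by rw [hw']; exact psi_mem hc hce
          have h2 : c ∈ w := (hCTT w w' hr c).2 h1
          rw [hw] at h2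
          exact hF.al c (mem_of_psi h2)
    · intro k hk
      rw [← b1 _ (se k) (s5 k)]
      exact ct1' k hk
    · intro k hk
      rw [← b1 _ (pe k) (p5 k)]
      exact cp2' k hk
    · intro k hk
      rw [← b4 _ _ (pe k) (se k) (p5 k) (s5 k)]
      exact (olr (pin k) (pe k) k hk (psn k k)).2.1.1 (wps k hk)
    · intro k hk
      unfold t1
      rw [← b4 _ _ (pe k) (se _) (p5 k) (s5 _)]
      refine (olr (pin k) (pe k) _ hh (psn k _)).2.1.1 ?_
      rw [a4 _ _ (pe k) (se _) (p5 k) (s5 _)]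
      exact hF.pt k hk
    · intro j k hj hk h
      rw [← b4 _ _ (pe j) (se k) (p5 j) (s5 k), ← b1 _ (pe j) (p5 j)]
      exact (olr (pin j) (pe j) k hk (psn j k)).2.2.1 (wpa j k hj hk h)
    · intro j k hj hk h
      rw [← b4 _ _ (pe k) (se j) (p5 k) (s5 j)]
      exact (olr (pin k) (pe k) j hj (psn k j)).2.1.1 (wpb j k hj hk h)
    · intro j k hj hk h
      rw [← b4 _ _ (se j) (se k) (s5 j) (s5 k)]
      exact (olr (sep j) (se j) k hk (ssn j k (jk j k h))).2.1.1 (wss j k hj hk h)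
    · intro j k hjk hk
      have hj : j ≤ 2 * m + 2 := by omega
      have hne : j ≠ k := by omega
      have h0 : pin j ∈ pre w (pin k) := by
        rw [a3 _ (pe k) (p5 k)]
        exact psi_mem (hF.po j k hjk hk) (pe j)
      rcases MWK.pre_total ((hSg.me j).2 hj) hne with h | h
      · have h1 := (hORD β hG hE0 hk0 w w' hr (pin j) (pin k) (sep j) (sep k) (ct1 j hj) (ct1 k hk)
          (ssn j k hne) (ppn j k hne) (cp2 j hj) (cp2 k hk) (wss j k hj hk h) (wps j hj)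
          (wpb j k hj hk h) (wps k hk) (wpa j k hj hk h)).1 h0
        rw [b3 _ (pe k) (p5 k)] at h1
        exact mem_of_psi h1
      · have h1 := hORD β hG hE0 hk0 w w' hr (pin k) (pin j) (sep k) (sep j) (ct1 k hk) (ct1 j hj)
          (ssn k j hne.symm) (ppn k j hne.symm) (cp2 k hk) (cp2 j hj) (wss k j hk hj h) (wps k hk)
          (wpb k j hk hj h) (wps j hj) (wpa k j hk hj h)
        have h2 : pin k ∉ pre w (pin j) := MWK.pre_asymm h0
        have h3 : pin k ∉ pre w' (pin j) := fun h4 => h2 (h1.2 h4)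
        have h5 : pin k ∉ pre W (pin j) := by
          intro h6
          apply h3
          rw [b3 _ (pe j) (p5 j)]
          exact psi_mem h6 (pe k)
        have h7 : pin j ∈ W := by
          have h8 := cp2' j hj
          have h9 : pin j ∈ w' := List.count_pos_iff.1 (by omega)
          rw [hw'] at h9
          exact mem_of_psi h9
        rcases MWK.pre_total h7 (ppn j k hne) with h8 | h8
        · exact h8
        · exact absurd h8 h5
  refine ⟨hFc, ?_⟩
  intro c hc hc5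
  have hce : c ≠ e := by omega
  have h1 : c ∈ w' := by rw [hw']; exact psi_mem hc hce
  have h2 : c ∈ w := (hCTT w w' hr c).2 h1
  have h3 : c ∈ w1 := by rw [hw] at h2; exact mem_of_psi h2
  obtain ⟨k, hk, hck⟩ := hX.2.2.2.2 c h3 hc5
  refine ⟨⟨k, hk, hck⟩, ?_⟩
  have h4 := hX.2.2.1 k hk
  rw [← hck] at h4
  have h5 : nn w c (t1 σ) = w.count c := by
    unfold t1
    rw [a5 c _ (se _) hc5 (s5 _), a2 c hc5]
    have h6 := h4.2
    unfold t1 at h6
    rw [h6, h4.1]
  have h6 : nn w' c (t1 σ) = w'.count c := by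
    refine (olr c hce (σ.headD 0) hh ?_).2.2.1 h5
    unfold sep
    omega
  unfold t1 at h6
  rw [b5 c _ (se _) hc5 (s5 _), b2 c hc5] at h6
  unfold t1
  omega

end Pool.Agent.MWLE.H95
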